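import Mathlib

/-!
# Semi-invariants in tensor products and the stable subspaces generated by their components
-/

set_option autoImplicit false
set_option linter.unusedSectionVars false

open scoped TensorProduct

namespace Pool.Agent.U173.GS

open Module

variable {K A B G : Type*} [Field K] [AddCommGroup A] [Module K A] [FiniteDimensional K A]
  [AddCommGroup B] [Module K B] [FiniteDimensional K B]

/-- if `F - α` is surjective on a space then `α` is not an eigenvalue -/
theorem no_eigen {W : Submodule K A} {F : Module.End K A} (hW : ∀ t ∈ W, F t ∈ W) {α : K}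
    (hsurj : ∀ t ∈ W, ∃ s ∈ W, F s - α • s = t) {t : A} (ht : t ∈ W) (hα : F t = α • t) : t = 0 := by
  let f : Module.End K W := F.restrict hW - α • (1 : Module.End K W)
  have hf : Function.Surjective f := by
    rintro ⟨t, ht⟩
    obtain ⟨s, hs, h⟩ := hsurj t ht
    exact ⟨⟨s, hs⟩, Subtype.ext h⟩
  have hi : Function.Injective f := LinearMap.injective_iff_surjective.2 hf
  have h0 : f ⟨t, ht⟩ = 0 := by
    apply Subtype.ext
    change F t - α • t = 0
    rw [hα, sub_self]
  exact congrArg Subtype.val ((injective_iff_map_eq_zero f).1 hi _ h0)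

/-- the projection onto `T` along `P` commutes with endomorphisms which preserve `P` and `T` -/
theorem proj_comm {P T : Submodule K A} (hPT : IsCompl T P) {F : Module.End K A}
    (hP : ∀ x ∈ P, F x ∈ P) (hT : ∀ x ∈ T, F x ∈ T) (x : A) :
    T.projection P hPT (F x) = F (T.projection P hPT x) := by
  obtain ⟨t, p, h, -⟩ := Submodule.existsUnique_add_of_isCompl hPT x
  rw [← h, map_add, map_add, map_add, Submodule.projection_apply_of_mem_left hPT (hT t t.2),
    Submodule.projection_apply_of_mem_right hPT (hP p p.2),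
    Submodule.projection_apply_of_mem_left hPT t.2,
    Submodule.projection_apply_of_mem_right hPT p.2, add_zero, add_zero]

/-- the component of `u` for the functional `φ` -/
noncomputable def comp (u : A ⊗[K] B) (φ : Dual K B) : A :=
  TensorProduct.rid K A (φ.lTensor A u)

omit [FiniteDimensional K A] [FiniteDimensional K B] in
theorem comp_map (F : Module.End K A) (E : Module.End K B) (u : A ⊗[K] B) (φ : Dual K B) :
    F (comp u (φ ∘ₗ E)) = comp (TensorProduct.map F E u) φ := by
  unfold comp
  induction u using TensorProduct.induction_on with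
  | zero => simp only [map_zero]
  | tmul a b =>
    rw [LinearMap.lTensor_tmul, TensorProduct.rid_tmul, TensorProduct.map_tmul,
      LinearMap.lTensor_tmul, TensorProduct.rid_tmul, map_smul]
    rfl
  | add x y hx hy => rw [map_add, map_add, map_add, map_add, map_add, map_add, hx, hy]

omit [FiniteDimensional K A] [FiniteDimensional K B] in
theorem comp_add (u : A ⊗[K] B) (φ ψ : Dual K B) : comp u (φ + ψ) = comp u φ + comp u ψ := by
  unfold comp
  rw [LinearMap.lTensor_add, LinearMap.add_apply, map_add]

omit [FiniteDimensional K A] [FiniteDimensional K B] in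
theorem comp_smul (u : A ⊗[K] B) (c : K) (φ : Dual K B) : comp u (c • φ) = c • comp u φ := by
  unfold comp
  rw [LinearMap.lTensor_smul, LinearMap.smul_apply, map_smul]

omit [FiniteDimensional K A] in
/-- if the projections of all components vanish then the tensor is in the other part -/
theorem mem_of_comp {P T : Submodule K A} (hPT : IsCompl T P) (u : A ⊗[K] B)
    (h : ∀ φ, T.projection P hPT (comp u φ) = 0) : u ∈ LinearMap.range (P.subtype.rTensor B) := by
  classical
  let b := Module.finBasis K B
  obtain ⟨c, rfl⟩ := TensorProduct.eq_repr_basis_right b u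
  have h1 : (c.sum fun i n => n ⊗ₜ[K] b i) = ∑ i, c i ⊗ₜ[K] b i := by
    rw [Finsupp.sum_fintype]
    intro i
    rw [TensorProduct.zero_tmul]
  rw [h1] at h ⊢
  have h2 : ∀ i, comp (∑ i, c i ⊗ₜ[K] b i) (b.coord i) = c i := by
    intro i
    unfold comp
    rw [map_sum, map_sum, Finset.sum_eq_single i]
    · rw [LinearMap.lTensor_tmul, TensorProduct.rid_tmul, Basis.coord_apply, Basis.repr_self,
        Finsupp.single_eq_same, one_smul]
    · intro j _ hj
      rw [LinearMap.lTensor_tmul, TensorProduct.rid_tmul, Basis.coord_apply, Basis.repr_self,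
        Finsupp.single_eq_of_ne hj.symm, zero_smul]
    · intro h0
      exact absurd (Finset.mem_univ i) h0
  have h3 : ∀ i, c i ∈ P := by
    intro i
    have h4 := h (b.coord i)
    rw [h2] at h4
    exact (Submodule.projection_apply_eq_zero_iff hPT).1 h4
  refine ⟨∑ i, (⟨c i, h3 i⟩ : P) ⊗ₜ[K] b i, ?_⟩
  rw [map_sum]
  rfl

/-- **Semi-invariants.** Let `u` be an eigenvector of all the `F g ⊗ E g`. Suppose that every nonzero
stable subspace `W` of `T` contains an eigenvector of some `F g` with an eigenvalue `α` such that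
`α β ≠ c g` for all eigenvalues `β` of `E g`. Then `u` lies in `P ⊗ B`. -/
theorem semi {P T : Submodule K A} (hPT : IsCompl P T) (F : G → Module.End K A)
    (E : G → Module.End K B) (c : G → K)
    (hF : ∀ g, Function.Injective (F g)) (hE : ∀ g, Function.Injective (E g))
    (hP : ∀ g, ∀ x ∈ P, F g x ∈ P) (hT : ∀ g, ∀ x ∈ T, F g x ∈ T) {u : A ⊗[K] B}
    (hu : ∀ g, TensorProduct.map (F g) (E g) u = c g • u)
    (hW : ∀ W : Submodule K A, W ≤ T → W ≠ ⊥ → (∀ g, ∀ t ∈ W, F g t ∈ W) →
      ∃ g, ∃ α : K, ∃ t ∈ W, t ≠ 0 ∧ F g t = α • t ∧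
        ∀ β, (E g).HasEigenvalue β → α * β ≠ c g) :
    u ∈ LinearMap.range (P.subtype.rTensor B) := by
  classical
  let π := T.projection P hPT.symm
  let Φ : Dual K B →ₗ[K] A :=
    { toFun := fun φ => π (comp u φ)
      map_add' := fun φ ψ => by rw [comp_add, map_add]
      map_smul' := fun a φ => by rw [comp_smul, map_smul]; rfl }
  have hΦ : ∀ g φ, F g (Φ (φ ∘ₗ E g)) = c g • Φ φ := by
    intro g φ
    change F g (π (comp u (φ ∘ₗ E g))) = c g • π (comp u φ)
    rw [← proj_comm hPT.symm (hP g) (hT g), comp_map, hu, ← map_smul]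
    congr 1
    unfold comp
    rw [map_smul, map_smul]
  by_cases h0 : LinearMap.range Φ = ⊥
  · refine mem_of_comp hPT.symm u fun φ => ?_
    have h1 : Φ φ ∈ LinearMap.range Φ := ⟨φ, rfl⟩
    rw [h0] at h1
    exact (Submodule.mem_bot K).1 h1
  -- the range of `Φ` is stable
  have hEs : ∀ g, Function.Surjective (E g) := fun g => LinearMap.injective_iff_surjective.1 (hE g)
  have hst : ∀ g, ∀ t ∈ LinearMap.range Φ, F g t ∈ LinearMap.range Φ := by
    rintro g _ ⟨φ, rfl⟩
    let e := LinearEquiv.ofBijective (E g) ⟨hE g, hEs g⟩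
    have h1 := hΦ g (φ ∘ₗ e.symm.toLinearMap)
    have h2 : (φ ∘ₗ e.symm.toLinearMap) ∘ₗ E g = φ := by
      ext x
      change φ (e.symm (e x)) = φ x
      rw [LinearEquiv.symm_apply_apply]
    rw [h2] at h1
    rw [h1]
    exact Submodule.smul_mem _ _ ⟨_, rfl⟩
  obtain ⟨g, α, t, ht, ht0, hα, hno⟩ := hW (LinearMap.range Φ) (by
    rintro _ ⟨φ, rfl⟩
    exact Submodule.projection_apply_mem hPT.symm _) h0 hst
  exfalso
  apply ht0
  have hα0 : α ≠ 0 := by
    rintro rfl
    rw [zero_smul] at hα
    exact ht0 ((injective_iff_map_eq_zero (F g)).1 (hF g) t hα)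
  have hβ : ¬ (E g).HasEigenvalue (c g / α) := fun h => hno _ h (by
    rw [mul_div_cancel₀ _ hα0])
  set β := c g / α with hβdef
  have hαβ : c g = α * β := by rw [hβdef, mul_div_cancel₀ _ hα0]
  have hinj : Function.Injective (E g - β • (1 : Module.End K B)) := by
    rw [← LinearMap.ker_eq_bot]
    have h5 : Module.End.eigenspace (E g) β = ⊥ := by
      by_contra h6
      exact hβ h6
    rwa [Module.End.eigenspace_def] at h5
  have hsur := LinearMap.injective_iff_surjective.1 hinj
  let e := LinearEquiv.ofBijective (E g - β • (1 : Module.End K B)) ⟨hinj, hsur⟩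
  have key : ∀ φ, ∃ s ∈ LinearMap.range Φ, F g s - α • s = F g (Φ φ) := by
    intro φ
    let ψ : Dual K B := φ ∘ₗ e.symm.toLinearMap
    have h1 : φ = ψ ∘ₗ E g - β • ψ := by
      ext x
      have h2 : ψ ((E g - β • (1 : Module.End K B)) x) = φ x := by
        change φ (e.symm (e x)) = φ x
        rw [LinearEquiv.symm_apply_apply]
      rw [← h2, LinearMap.sub_apply, map_sub, LinearMap.smul_apply, Module.End.one_apply, map_smul]
      rfl
    refine ⟨(-β) • Φ ψ, Submodule.smul_mem _ _ ⟨ψ, rfl⟩, ?_⟩
    have h3 : F g (Φ φ) = c g • Φ ψ - β • F g (Φ ψ) := by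
      rw [← hΦ g ψ, ← map_smul (F g), ← map_sub (F g), ← map_smul Φ, ← map_sub Φ, ← h1]
    rw [h3, map_smul, hαβ]
    module
  refine no_eigen (F := F g) (hst g) (α := α) ?_ ht hα
  intro t' ht'
  -- `F g` is surjective on the range
  let f : Module.End K (LinearMap.range Φ) := (F g).restrict (hst g)
  have hfi : Function.Injective f := fun x y hxy => Subtype.ext (hF g (congrArg Subtype.val hxy))
  obtain ⟨s, hs⟩ := LinearMap.injective_iff_surjective.1 hfi ⟨t', ht'⟩
  obtain ⟨s, φ, rfl⟩ := s
  have h1 : F g (Φ φ) = t' := congrArg Subtype.val hs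
  obtain ⟨s', hs', h2⟩ := key φ
  exact ⟨s', hs', h2.trans h1⟩

end Pool.Agent.U173.GS
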