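import Pool.Agent.U173.OP.Defs

/-!
# Varieties without supersingular Galois-stable subspaces: definitions
-/

set_option autoImplicit false

open Polynomial CategoryTheory AlgebraicGeometry

namespace Pool.Agent.U173.GS

open Pool.Agent.H914 Pool.Agent.H914.VarClass Pool.Agent.H914.VarClass.Obj Pool.Agent.W492.BB
  Pool.Agent.W484.CK Pool.Agent.N166.MU Pool.Agent.N166.TT Pool.Agent.U231.FR.Base
  Pool.Agent.U173.SL Pool.Agent.U173.PS Pool.Agent.U173.OP

variable {k : Type} [Field k] {𝒱 : VarClass k} {C : TheoryData.{0, 0, 0} 𝒱 ℚ} {K : Type}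
  [Field K] {H : WeilTheoryData.{0, 0, 0} C K} {G : Type} (ρ : Operations H G) [CharZero K]

/-- `a` is an eigenvector of the Frobenius at `v` with eigenvalue `α`. -/
def IsEigenvector (v : Place G) {X : 𝒱.Obj} (α : K) (a : H.A X) : Prop :=
  a ≠ 0 ∧ ρ.op X v.σ a = α • a

/-- The subspace `W` of the cohomology is stable under the operation of `G`. -/
def IsStable {X : 𝒱.Obj} (W : Submodule K (H.A X)) : Prop := ∀ g, ∀ t ∈ W, ρ.op X g t ∈ W

/-- The subspace `W` of the cohomology is supersingular at the place `v`: some power of each eigenvalue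
of the Frobenius at `v` on `W` is a power of `p`. -/
def IsSupersingularOn (v : Place G) {X : 𝒱.Obj} (W : Submodule K (H.A X)) : Prop :=
  ∀ (α : K), ∀ t ∈ W, IsEigenvector ρ v α t → ∃ (N : ℕ) (b : ℤ), 0 < N ∧ α ^ N = (v.p : K) ^ b

/-- The cohomology of `X` is the direct sum of the span of the classes of algebraic cycles (over `k`)
and a subspace `T` stable under `G`, such that for all places `v` in `P` the eigenvalues of the
Frobenius at `v` on `T` are Weil numbers with slope field `L v`, and such that **no nonzero subspace of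
`T` stable under `G` is supersingular at all places in `P`**. -/
def IsGood (P : Set (Place G)) (L : Place G → IntermediateField ℚ (AlgebraicClosure ℚ))
    (X : 𝒱.Obj) : Prop :=
  ∃ T : Submodule K (H.A X), IsStable ρ T ∧ IsCompl T (cycleSpan H X) ∧
    (∀ v ∈ P, ∀ (α : K), ∀ t ∈ T, IsEigenvector ρ v α t → HasSlopesIn v.p v.ι (L v) α ∧
      ∃ w, IsWeilNumber (v.p ^ v.m) w α) ∧
    ∀ W ≤ T, IsStable ρ W → (∀ v ∈ P, IsSupersingularOn ρ v W) → W = ⊥

/-- Each `X i` is good for the set `P i` of places, with slope fields `L i v` which contain totally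
real fields `E i v`. For all `v` in `P i`, the varieties `X j` with indices behind `i` in the list `l` and
the varieties `Y j`, `j` in the list `l'`, are apart from `X i` at the place `v`; and `Z` has at `v` a slope
field which contains `E i v` and meets `L i v` in a totally real field. -/
structure IsSystem {I I' : Type} (P : I → Set (Place G))
    (E L : I → Place G → IntermediateField ℚ (AlgebraicClosure ℚ)) (X : I → 𝒱.Obj)
    (Y : I' → 𝒱.Obj) (Z : 𝒱.Obj) (l : List I) (l' : List I') : Prop where
  pos : ∀ i, ∀ v ∈ P i, 0 < v.m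
  character : ∀ i, ∀ v ∈ P i, ρ.χ v.σ = (v.p : K) ^ v.m
  real : ∀ i, ∀ v ∈ P i, ∀ z ∈ E i v, IsTotallyReal z
  le : ∀ i, ∀ v ∈ P i, E i v ≤ L i v
  good : ∀ i, IsGood ρ (P i) (L i) (X i)
  pairs : l.Pairwise fun i j => ∀ v ∈ P i, IsApart ρ v (E i v) (L i v) (X j)
  others : ∀ i, ∀ j ∈ l', ∀ v ∈ P i, IsApart ρ v (E i v) (L i v) (Y j)
  base : ∀ i, ∀ v ∈ P i, MeetsInReal ρ v (E i v) (L i v) Z

end Pool.Agent.U173.GS
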