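import Pool.Agent.U173.OP.Main
import Pool.Agent.U173.GS.Lin
import Pool.Agent.U173.GS.Defs

/-!
# Semi-invariants in the cohomology of products
-/

set_option autoImplicit false
set_option linter.unusedSectionVars false

open Polynomial CategoryTheory AlgebraicGeometry
open scoped TensorProduct

namespace Pool.Agent.U173.GS

open Pool.Agent.H914 Pool.Agent.H914.VarClass Pool.Agent.H914.VarClass.Obj Pool.Agent.W492.BB
  Pool.Agent.W484.CK Pool.Agent.N166.MU Pool.Agent.N166.TT Pool.Agent.N876.CG Pool.Agent.W550.Corr
  Pool.Agent.TH133 Pool.Agent.N166.DF Pool.Agent.U231.FR.Base Pool.Agent.U173.SL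
  Pool.Agent.U173.PS Pool.Agent.TH121.KT Pool.Agent.U173.OP

variable {k : Type} [Field k] {𝒱 : VarClass k} {C : TheoryData.{0, 0, 0} 𝒱 ℚ} [hC : IsChow C]
  {K : Type} [Field K] [CharZero K] {H : WeilTheoryData.{0, 0, 0} C K} [hH : IsWeil H] {G : Type}
  {ρ : Operations H G} (h : IsArithmetic ρ) {A Z : 𝒱.Obj}

/-- the orientation and the operation -/
theorem tr_gen (g : G) (c : H.A A) :
    H.tr A (opL h.action g A c) = ρ.χ g ^ A.dim * H.tr A c := by
  have hQK : ρ.χ g ≠ 0 := h.action.ne g
  obtain ⟨z₀, -, hz₀, -⟩ := exists_deg_one C A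
  have htr : ∀ x : H.A A, H.tr A x =
      H.tr A (H.push (snd A A) (H.pull (fst A A) x) * H.cl z₀) := by
    intro x
    rw [← Pool.Agent.W484.CH.tr_snd, Pool.Agent.W484.CH.tr_fst, ← H.cl_pull, ← H.cl_push, hz₀ A,
      map_one, mul_one]
  have htop : c ∈ ⨆ i, H.gr A i := by
    rw [(hH.isTheory.isGradedRing.isInternal A).submodule_iSup_eq_top]
    exact Submodule.mem_top
  induction htop using Submodule.iSup_induction' with
  | mem i c hc =>
    by_cases hi : i = 2 * A.dim
    · have h0 : H.push (snd A A) (H.pull (fst A A) c) ∈ H.gr A 0 := by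
        have h1 := H.push_mem (snd A A) (H.pull_mem (fst A A) hc)
        rw [Obj.dim_prod, hi] at h1
        have h2 : 2 * (A.dim : ℤ) + 2 * ((A.dim : ℤ) - ((A.dim + A.dim : ℕ) : ℤ)) = 0 := by
          push_cast
          ring
        rwa [h2] at h1
      obtain ⟨a, ha⟩ := h.standard.coh_zero A _ h0
      have h1 := h.action.push _ _ (snd A A) g (H.pull (fst A A) c)
      change opL h.action g A (H.push (snd A A) (H.pull (fst A A) c)) =
        _ • H.push (snd A A) (ρ.op _ g (H.pull (fst A A) c)) at h1
      have h2 : ρ.op _ g (H.pull (fst A A) c) = H.pull (fst A A) (opL h.action g A c) :=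
        h.action.pull _ _ (fst A A) g c
      have h3 : opL h.action g A 1 = (1 : H.A A) := by
        have h4 := h.action.cl A g 0 (1 : C.A A) (C.one_mem A)
        change opL h.action g A (H.cl 1) = ρ.χ g ^ (0 : ℤ) • H.cl 1 at h4
        rwa [map_one, zpow_zero, one_smul] at h4
      rw [h2, ha, map_smul, h3, ← ha, Obj.dim_prod] at h1
      have h4 : ((A.dim : ℤ) - ((A.dim + A.dim : ℕ) : ℤ)) = - (A.dim : ℤ) := by
        push_cast
        ring
      rw [h4, zpow_neg, zpow_natCast] at h1
      have h5 : H.push (snd A A) (H.pull (fst A A) (opL h.action g A c)) =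
          ρ.χ g ^ A.dim • H.push (snd A A) (H.pull (fst A A) c) := by
        rw [h1, smul_smul, mul_inv_cancel₀ (pow_ne_zero _ hQK), one_smul]
      rw [htr (opL h.action g A c), htr c, h5, smul_mul_assoc, map_smul, smul_eq_mul]
    · have h1 : H.tr A c = 0 := h.oriented A i c hc hi
      have h2 : H.tr A (opL h.action g A c) = 0 := h.oriented A i _ (h.degrees A g i c hc) hi
      rw [h1, h2, mul_zero]
  | zero => rw [map_zero, map_zero, mul_zero]
  | add x y _ _ hx hy => rw [map_add, map_add, map_add, hx, hy, mul_add]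

theorem opL_injective (g : G) (A : 𝒱.Obj) : Function.Injective (opL h.action g A) := by
  rw [injective_iff_map_eq_zero]
  intro a ha
  apply H.nondeg
  intro b
  have h1 := tr_gen h g (a * b)
  rw [opL_mul h, ha, zero_mul, map_zero] at h1
  exact (mul_eq_zero.1 h1.symm).resolve_left (pow_ne_zero _ (h.action.ne g))

theorem AK_gen (g : G) {n : ℕ} {c : H.A A} (hc : c ∈ AK H A n) :
    opL h.action g A c = ρ.χ g ^ n • c := by
  unfold AK at hc
  induction hc using Submodule.span_induction with
  | mem c hc =>
    obtain ⟨D, hD, rfl⟩ := hc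
    have h1 := h.action.cl A g n D hD
    rw [zpow_natCast] at h1
    exact h1
  | zero => rw [map_zero, smul_zero]
  | add x y _ _ hx hy => rw [map_add, hx, hy, smul_add]
  | smul a x _ hx => rw [map_smul, hx, smul_comm]

theorem AT_gen (g : G) : ∀ c ∈ AT H A, opL h.action g A c ∈ AT H A := by
  intro c hc
  unfold AT at hc
  induction hc using Submodule.span_induction with
  | mem c hc =>
    obtain ⟨n, D, hD, rfl⟩ := hc
    rw [AK_gen h g (Submodule.subset_span ⟨D, hD, rfl⟩)]
    exact Submodule.smul_mem _ _ (Submodule.subset_span ⟨n, D, hD, rfl⟩)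
  | zero => rw [map_zero]; exact Submodule.zero_mem _
  | add x y _ _ hx hy => rw [map_add]; exact Submodule.add_mem _ hx hy
  | smul a x _ hx => rw [map_smul]; exact Submodule.smul_mem _ _ hx

include h in
/-- **The pairing is nondegenerate on the algebraic classes.** -/
theorem nondeg_gen {P : Set (Place G)} (hP : ∀ v ∈ P, ρ.χ v.σ = (v.p : K) ^ v.m)
    {T : Submodule K (H.A A)} (hT : IsStable ρ T) (hc : IsCompl T (AT H A))
    (hss : ∀ W ≤ T, IsStable ρ W → (∀ v ∈ P, IsSupersingularOn ρ v W) → W = ⊥) : Nondeg H A := by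
  have hfin := h.standard.finite A
  -- the orthogonal space of `T`
  let N : Submodule K (H.A A) :=
    { carrier := {y | ∀ t ∈ T, H.tr A (y * t) = 0}
      zero_mem' := fun t _ => by rw [zero_mul, map_zero]
      add_mem' := fun {a b} ha hb t ht => by rw [add_mul, map_add, ha t ht, hb t ht, add_zero]
      smul_mem' := fun c a ha t ht => by rw [smul_mul_assoc, map_smul, ha t ht, smul_zero] }
  have hTs : ∀ g, ∀ t ∈ T, ∃ s ∈ T, opL h.action g A s = t := by
    intro g t ht
    let f : Module.End K T := (opL h.action g A).restrict (hT g)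
    have hfi : Function.Injective f := fun x y hxy =>
      Subtype.ext (opL_injective h g A (congrArg Subtype.val hxy))
    obtain ⟨s, hs⟩ := LinearMap.injective_iff_surjective.1 hfi ⟨t, ht⟩
    exact ⟨s, s.2, congrArg Subtype.val hs⟩
  have hN : ∀ g, ∀ y ∈ N, opL h.action g A y ∈ N := by
    intro g y hy t ht
    obtain ⟨s, hs, rfl⟩ := hTs g t ht
    rw [← opL_mul h, tr_gen h, hy s hs, mul_zero]
  let W : Submodule K (H.A A) := N.map (T.projection (AT H A) hc)
  have hWT : W ≤ T := by
    rintro _ ⟨y, -, rfl⟩
    exact Submodule.projection_apply_mem hc y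
  have hcomm : ∀ g x, T.projection (AT H A) hc (opL h.action g A x) =
      opL h.action g A (T.projection (AT H A) hc x) := fun g x =>
    proj_comm hc (AT_gen h g) (hT g) x
  have hWs : IsStable ρ W := by
    rintro g _ ⟨y, hy, rfl⟩
    exact ⟨opL h.action g A y, hN g y hy, hcomm g y⟩
  have hW : W = ⊥ := by
    refine hss W hWT hWs ?_
    intro v hv α t ht hα
    by_contra hno
    push Not at hno
    -- `σ - α` is injective on `N`
    let f : Module.End K N := (opL h.action v.σ A).restrict (hN v.σ) - α • (1 : Module.End K N)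
    have hf : Function.Injective f := by
      rw [injective_iff_map_eq_zero]
      rintro ⟨y, hy⟩ h0
      apply Subtype.ext
      change y = 0
      have h1 : opL h.action v.σ A y = α • y := sub_eq_zero.1 (congrArg Subtype.val h0)
      apply H.nondeg
      intro b
      have hb : b ∈ T ⊔ AT H A := by rw [hc.sup_eq_top]; trivial
      obtain ⟨t', ht', a, ha, rfl⟩ := Submodule.mem_sup.1 hb
      change H.tr A (y * (t' + a)) = 0
      rw [mul_add, map_add, hy t' ht', zero_add]
      unfold AT at ha
      clear hb
      induction ha using Submodule.span_induction with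
      | mem a ha =>
        obtain ⟨n, D, hD, rfl⟩ := ha
        by_cases hn : n ≤ A.dim
        · have h2 := tr_gen h v.σ (y * H.cl D)
          rw [opL_mul h, h1, AK_gen h v.σ (Submodule.subset_span ⟨D, hD, rfl⟩),
            smul_mul_smul_comm, map_smul, smul_eq_mul] at h2
          have h3 : (α * ρ.χ v.σ ^ n - ρ.χ v.σ ^ A.dim) * H.tr A (y * H.cl D) = 0 := by
            rw [sub_mul, h2, sub_self]
          rcases mul_eq_zero.1 h3 with h4 | h4
          · exfalso
            have hne : ρ.χ v.σ ≠ 0 := h.action.ne v.σ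
            have h5 : α = ρ.χ v.σ ^ (A.dim - n) := by
              have h6 : ρ.χ v.σ ^ A.dim = ρ.χ v.σ ^ (A.dim - n) * ρ.χ v.σ ^ n := by
                rw [← pow_add, Nat.sub_add_cancel hn]
              rw [h6, sub_eq_zero] at h4
              exact mul_right_cancel₀ (pow_ne_zero _ hne) h4
            refine hno 1 ((v.m * (A.dim - n) : ℕ) : ℤ) one_pos ?_
            rw [pow_one, zpow_natCast, h5, hP v hv, pow_mul]
          · exact h4
        · have h2 : D = 0 := h.standard.chow_top A n D (by omega) hD
          rw [h2, map_zero, mul_zero, map_zero]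
      | zero => rw [mul_zero, map_zero]
      | add x y _ _ hx hy => rw [mul_add, map_add, hx, hy, add_zero]
      | smul r x _ hx => rw [mul_smul_comm, map_smul, hx, smul_zero]
    have hfs := LinearMap.injective_iff_surjective.1 hf
    apply hα.1
    refine no_eigen (F := opL h.action v.σ A) (hWs v.σ) (α := α) ?_ ht hα.2
    rintro _ ⟨y, hy, rfl⟩
    obtain ⟨⟨s, hs⟩, h1⟩ := hfs ⟨y, hy⟩
    refine ⟨_, ⟨s, hs, rfl⟩, ?_⟩
    have h2 : opL h.action v.σ A s - α • s = y := congrArg Subtype.val h1
    rw [← hcomm, ← map_smul (T.projection (AT H A) hc), ← map_sub, h2]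
  have hNA : N ≤ AT H A := by
    intro y hy
    have h1 : T.projection (AT H A) hc y ∈ W := ⟨y, hy, rfl⟩
    rw [hW] at h1
    exact (Submodule.projection_apply_eq_zero_iff hc).1 ((Submodule.mem_bot K).1 h1)
  -- dimensions
  have hNeq : N = AT H A := by
    refine Submodule.eq_of_le_of_finrank_eq hNA ?_
    let Ψ₀ : H.A A →ₗ[K] Module.Dual K (H.A A) :=
      LinearMap.mk₂ K (fun y t => H.tr A (y * t)) (fun a b t => by rw [add_mul, map_add])
        (fun c a t => by rw [smul_mul_assoc, map_smul]) (fun a t s => by rw [mul_add, map_add])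
        (fun c a t => by rw [mul_smul_comm, map_smul])
    have hΨ₀ : Function.Injective Ψ₀ := by
      rw [injective_iff_map_eq_zero]
      intro a ha
      exact H.nondeg a fun b => LinearMap.congr_fun ha b
    have hΨs : Function.Surjective Ψ₀ := by
      have h1 : Module.finrank K (H.A A) = Module.finrank K (Module.Dual K (H.A A)) :=
        (Subspace.dual_finrank_eq).symm
      exact (LinearMap.injective_iff_surjective_of_finrank_eq_finrank h1).1 hΨ₀
    let Ψ : H.A A →ₗ[K] Module.Dual K T := T.subtype.dualMap ∘ₗ Ψ₀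
    have hΨ : Function.Surjective Ψ :=
      (LinearMap.dualMap_surjective_of_injective T.injective_subtype).comp hΨs
    have hker : LinearMap.ker Ψ = N := by
      ext y
      constructor
      · intro hy t ht
        exact LinearMap.congr_fun hy ⟨t, ht⟩
      · intro hy
        refine LinearMap.ext fun t => ?_
        exact hy t t.2
    have h1 := LinearMap.finrank_range_add_finrank_ker Ψ
    rw [LinearMap.range_eq_top.2 hΨ, finrank_top, Subspace.dual_finrank_eq, hker] at h1
    have h2 := Submodule.finrank_add_eq_of_isCompl hc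
    omega
  intro n hn c hcn h0
  apply H.nondeg
  intro b
  have hb : b ∈ T ⊔ AT H A := by rw [hc.sup_eq_top]; trivial
  obtain ⟨t, ht, a, ha, rfl⟩ := Submodule.mem_sup.1 hb
  change H.tr A (c * (t + a)) = 0
  have h1 : H.tr A (c * t) = 0 := by
    have h2 : c ∈ N := by
      rw [hNeq]
      exact AK_le n hcn
    exact h2 t ht
  rw [mul_add, map_add, h1, zero_add]
  unfold AT at ha
  clear hb
  induction ha using Submodule.span_induction with
  | mem a ha =>
    obtain ⟨m, D, hD, rfl⟩ := ha
    have hDm : H.cl D ∈ AK H A m := Submodule.subset_span ⟨D, hD, rfl⟩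
    by_cases hm : m = A.dim - n
    · subst hm
      exact h0 _ hDm
    · -- degrees
      have h2 : c * H.cl D ∈ H.gr A (2 * (n : ℤ) + 2 * m) := by
        refine H.mul_mem ?_ (H.cl_mem hD)
        have h3 : AK H A n ≤ H.gr A (2 * (n : ℤ)) := by
          unfold AK
          refine Submodule.span_le.2 ?_
          rintro _ ⟨D', hD', rfl⟩
          exact H.cl_mem hD'
        exact h3 hcn
      exact h.oriented A _ _ h2 (by omega)
  | zero => rw [mul_zero, map_zero]
  | add x y _ _ hx hy => rw [mul_add, map_add, hx, hy, add_zero]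
  | smul r x _ hx => rw [mul_smul_comm, map_smul, hx, smul_zero]

end Pool.Agent.U173.GS
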