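import Pool.Agent.U173.GS.Geo

/-!
# The Tate conjecture over finitely generated fields from several places for each factor
-/

set_option autoImplicit false
set_option linter.unusedSectionVars false

open Polynomial CategoryTheory AlgebraicGeometry
open scoped TensorProduct

namespace Pool.Agent.U173.GS

open Pool.Agent.H914 Pool.Agent.H914.VarClass Pool.Agent.H914.VarClass.Obj Pool.Agent.W492.BB
  Pool.Agent.W484.CK Pool.Agent.N166.MU Pool.Agent.N166.TT Pool.Agent.N876.CG Pool.Agent.W550.Corr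
  Pool.Agent.TH133 Pool.Agent.N166.DF Pool.Agent.U231.FR.Base Pool.Agent.U173.SL
  Pool.Agent.U173.PS Pool.Agent.TH121.KT Pool.Agent.U173.OP

variable {k : Type} [Field k] {𝒱 : VarClass k} {C : TheoryData.{0, 0, 0} 𝒱 ℚ} [hC : IsChow C]
  {K : Type} [Field K] [CharZero K] {H : WeilTheoryData.{0, 0, 0} C K} [hH : IsWeil H] {G : Type}
  {ρ : Operations H G}

section step

variable (h : IsArithmetic ρ) {A Z : 𝒱.Obj}

include h

/-- **One step.** -/
theorem gen_of_mix (hnd : Nondeg H A)
    (hmix : ∀ (i : ℤ) w, IsTate ρ (A.prod Z) i w → w ∈ mixA H A Z) :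
    ∃ (J : Type) (_ : Fintype J) (deg : J → ℕ) (D E : J → C.A A), GenHom H A Z deg D E ∧
      ∀ (i : ℤ) (w : H.A (A.prod Z)), IsTate ρ (A.prod Z) i w → ∃ h : J → H.A Z,
        w = ∑ j, H.ext (H.cl (D j)) (h j) := by
  have hC1 : IsChowProj C := isChowProj_of h.normalized h.standard
  have hH1 : IsWeilProj H := isWeilProj_of h.standard h.oriented
  obtain ⟨J, hJ, deg, D, E, hdual, hN⟩ := exists_dual (isStandard_bridge h.standard) hnd Z
  have hK : ∀ (i : ℤ) (w : H.A (A.prod Z)), IsTate ρ (A.prod Z) i w →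
      H.act (H.cl (Pool.Agent.W484.CH.proj Z D E)) w = w := fun i w hw =>
    act_proj_mixA hdual hN (hmix i w hw)
  refine ⟨J, hJ, deg, D, E, ⟨hdual.left, hdual.right, fun j => eq_of_dual h.standard hdual j,
    fun i j hij => ne_of_dual h.standard hdual i j hij, fun i x hx => ?_⟩, fun i w hw => ?_⟩
  · refine ⟨fun j => coef (E j) x, fun j => coef_mem (hdual.right j) hx (by ring), ?_⟩
    have h1 := hK i (H.cl x) ⟨H.cl_mem hx, fun g => h.action.cl (A.prod Z) g i x hx⟩
    have h2 := Pool.Agent.W484.CH.eq_sum_of_act h1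
    rw [h2, map_sum]
    refine Finset.sum_congr rfl fun j _ => ?_
    rw [← cl_act H, ← cl_act H, Pool.Agent.W484.CH.act_extBy, Pool.Agent.W484.CH.act_pairBy]
    rfl
  · have h1 := hK i w hw
    have h2 := Pool.Agent.W484.CH.eq_sum_of_act h1
    refine ⟨fun j => H.act (H.cl (Pool.Agent.W484.CH.pairBy C Z (E j))) w, ?_⟩
    have h3 : ∀ (j : J) (z : H.A Z), H.act (H.cl (Pool.Agent.W484.CH.extBy C Z (D j))) z =
        H.ext (H.cl (D j)) z := by
      intro j z
      have h4 : H.cl (Pool.Agent.W484.CH.extBy C Z (D j)) =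
          Pool.Agent.W484.CH.extBy H.toTheoryData Z (H.cl (D j)) := by
        rw [Pool.Agent.W484.CH.extBy, Pool.Agent.W484.CH.extBy, H.cl_push, H.cl_pull]
      rw [h4, Pool.Agent.W484.CH.act_extBy]
    rw [h2]
    refine Finset.sum_congr rfl fun j _ => ?_
    rw [h3, ← h2]

/-- **The conclusions of one step.** -/
theorem step_of_mix (hnd : Nondeg H A)
    (hmix : ∀ (i : ℤ) w, IsTate ρ (A.prod Z) i w → w ∈ mixA H A Z) :
    IsDetermined ρ A Z ∧ (∀ i : ℕ, IsSpanned ρ (A.prod Z) i ↔
        ∀ m : ℕ, m ≤ i → i ≤ m + A.dim → IsSpanned ρ Z m) ∧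
      ((∀ i, RankEquality ρ (A.prod Z) i) ↔ ∀ i, RankEquality ρ Z i) := by
  have hC1 : IsChowProj C := isChowProj_of h.normalized h.standard
  have hH1 : IsWeilProj H := isWeilProj_of h.standard h.oriented
  obtain ⟨J, hJ, deg, D, E, hG, hT⟩ := gen_of_mix h hnd hmix
  have hρ := h.action
  refine ⟨⟨J, hJ, deg, D, hG.left, fun i x hx => ?_, fun i w hw => ?_⟩,
    isSpanned_iff hρ hG hT, rankEquality_all_iff hρ hG hT⟩
  · refine ⟨fun j => coef (E j) x, ⟨fun j => coef_mem' H hG hx j, expand H hG hx⟩,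
      fun z' hz' j => ?_⟩
    have h1 : H.cl x = H.cl (∑ j, C.ext (D j) (z' j)) := hz'
    change H.cl (coef (E j) x) = H.cl (z' j)
    rw [cl_coef', h1, ← cl_coef']
    exact congrArg H.cl (Pool.Agent.N166.DF.coef_gen H hG z' j)
  · refine ⟨fun j => coefH H (E j) w, ⟨fun j => isTate_coef hρ hG hw j,
      expandT hρ hG hT hw⟩, fun h' hh => ?_⟩
    funext j
    have h1 := coefH_gen hρ hG h' j
    have h2 : w = ∑ j, H.ext (H.cl (D j)) (h' j) := hh.2
    rw [← h2] at h1
    exact h1.symm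

/-- **Tate classes lie in the mixed part.** -/
theorem mix_of_good [IsAlgClosed K] {P : Set (Place G)}
    (hP : ∀ v ∈ P, ρ.χ v.σ = (v.p : K) ^ v.m) {T : Submodule K (H.A A)} (hT : IsStable ρ T)
    (hc : IsCompl T (AT H A))
    (hss : ∀ W ≤ T, IsStable ρ W → (∀ v ∈ P, IsSupersingularOn ρ v W) → W = ⊥)
    (hres : ∀ v ∈ P, ∀ (α : K), ∀ t ∈ T, IsEigenvector ρ v α t →
      (∀ (N : ℕ) (b : ℤ), 0 < N → α ^ N ≠ (v.p : K) ^ b) →
      ∀ β, (opL h.action v.σ Z).HasEigenvalue β → ∀ i : ℤ, α * β ≠ (v.p : K) ^ i)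
    (i : ℤ) (w : H.A (A.prod Z)) (hw : IsTate ρ (A.prod Z) i w) : w ∈ mixA H A Z := by
  have hS := isStandard_bridge h.standard
  have := hS.finite A
  have := hS.finite Z
  obtain ⟨u, rfl⟩ := kt_surjective hS w
  have h1 : ∀ g, TensorProduct.map (opL h.action g A) (opL h.action g Z) u = ρ.χ g ^ i • u := by
    intro g
    apply kt_injective hS
    rw [← kt_opL h, map_smul]
    exact hw.2 g
  obtain ⟨u', rfl⟩ := semi hc.symm (fun g => opL h.action g A) (fun g => opL h.action g Z)
    (fun g => ρ.χ g ^ i) (fun g => opL_injective h g A) (fun g => opL_injective h g Z)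
    (fun g => AT_gen h g) hT h1 (by
      intro W hWT hW0 hWs
      by_contra hno
      apply hW0
      refine hss W hWT hWs fun v hv α t ht hα => ?_
      by_contra hno'
      push Not at hno'
      apply hno
      refine ⟨v.σ, α, t, ht, hα.1, hα.2, fun β hβ heq => ?_⟩
      refine hres v hv α t (hWT ht) hα (fun N b hN => hno' N b hN) β hβ (v.m * i) ?_
      rw [heq, hP v hv, ← zpow_natCast, ← zpow_mul])
  exact kt_range u'

end step

variable {I I' : Type} {X : I → 𝒱.Obj} {Y : I' → 𝒱.Obj} {Z : 𝒱.Obj} {P : I → Set (Place G)}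
  {E L : I → Place G → IntermediateField ℚ (AlgebraicClosure ℚ)} {l' : List I'}

/-- **The step in a system.** -/
theorem system_step [IsAlgClosed K] (h : IsArithmetic ρ) {i : I} {l : List I}
    (hsys : IsSystem ρ P E L X Y Z (i :: l) l') :
    IsDetermined ρ (X i) (productOf X (productOf Y Z l') l) ∧
      (∀ n : ℕ, IsSpanned ρ (productOf X (productOf Y Z l') (i :: l)) n ↔
        ∀ m : ℕ, m ≤ n → n ≤ m + (X i).dim →
          IsSpanned ρ (productOf X (productOf Y Z l') l) m) ∧
      ((∀ n, RankEquality ρ (productOf X (productOf Y Z l') (i :: l)) n) ↔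
        ∀ n, RankEquality ρ (productOf X (productOf Y Z l') l) n) := by
  obtain ⟨hpos, hchar, hreal, hle, hgood, hpairs, hothers, hbase⟩ := hsys
  rw [List.pairwise_cons] at hpairs
  obtain ⟨T, hT, hc, hTS, hss⟩ := hgood i
  refine step_of_mix h (nondeg_gen h (hchar i) hT hc hss)
    (mix_of_good h (hchar i) hT hc hss ?_)
  intro v hv α t ht hα hno γ hγ n heq
  obtain ⟨M, hEM, hLM, hM⟩ := hbase i v hv
  obtain ⟨hslope, hweil⟩ := hTS v hv α t ht hα
  obtain ⟨y, β', hne, hy, hβ', rfl⟩ := eig_list h v.σ {a | Apart v (E i v) (L i v) a} l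
    (fun j hj => apart_of h (hpairs.1 j hj v hv)) γ hγ
  obtain ⟨y', β, hne', hy', hβ, rfl⟩ := eig_list h v.σ {a | Apart v (E i v) (L i v) a} l'
    (fun j hj => apart_of h (hothers i j hj v hv)) β' hβ'
  obtain ⟨b, hb, hb'⟩ := (hasEigenvalue_iff h _ _ _).1 hβ
  refine no_relation_star (ι := v.ι) (hreal i v hv) (hle i v hv) hEM hLM (m := v.m)
    ⟨hslope, hweil, fun N b hN => hno N b hN⟩ (Y := y ++ y') ?_
    (fun a ha => ?_) (hM β b hb hb') n ?_
  · intro hne2
    by_cases hl : l = []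
    · have hy0 : y = [] := by
        by_contra h0
        exact hne h0 hl
      have hy0' : y' ≠ [] := by
        intro h0
        apply hne2
        rw [hy0, h0]
        rfl
      obtain ⟨j, hj⟩ := List.exists_mem_of_ne_nil l' (hne' hy0')
      exact (hothers i j hj v hv).1
    · obtain ⟨j, hj⟩ := List.exists_mem_of_ne_nil l hl
      exact (hpairs.1 j hj v hv).1
  · rcases List.mem_append.1 ha with ha | ha
    · exact hy a ha
    · exact hy' a ha
  · rw [List.prod_append, ← mul_assoc α, mul_assoc, mul_assoc, heq]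

theorem IsSystem.tail {i : I} {l : List I} (hsys : IsSystem ρ P E L X Y Z (i :: l) l') :
    IsSystem ρ P E L X Y Z l l' :=
  ⟨hsys.pos, hsys.character, hsys.real, hsys.le, hsys.good, (List.pairwise_cons.1 hsys.pairs).2,
    hsys.others, hsys.base⟩

/-- **The theorem.** -/
theorem main [IsAlgClosed K] (h : IsArithmetic ρ) (l : List I)
    (hsys : IsSystem ρ P E L X Y Z l l') :
    (∀ n : ℕ, IsSpanned ρ (productOf X (productOf Y Z l') l) n ↔
        ∀ m : ℕ, m ≤ n → n ≤ m + dimension X l → IsSpanned ρ (productOf Y Z l') m) ∧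
      ((∀ n, RankEquality ρ (productOf X (productOf Y Z l') l) n) ↔
        ∀ n, RankEquality ρ (productOf Y Z l') n) ∧
      (∀ i l₁, l = i :: l₁ → IsDetermined ρ (X i) (productOf X (productOf Y Z l') l₁)) := by
  induction l with
  | nil =>
    refine ⟨fun n => ?_, Iff.rfl, fun i l₁ h1 => absurd h1 (by simp)⟩
    change IsSpanned ρ (productOf Y Z l') n ↔
      ∀ m : ℕ, m ≤ n → n ≤ m + 0 → IsSpanned ρ (productOf Y Z l') m
    constructor
    · intro h1 m hm hn
      have : m = n := by omega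
      rw [this]
      exact h1
    · intro h1
      exact h1 n le_rfl (by omega)
  | cons i l ih =>
    obtain ⟨h0, h1, h2⟩ := system_step h hsys
    obtain ⟨h3, h4, -⟩ := ih hsys.tail
    refine ⟨fun n => ?_, h2.trans h4, fun i' l₁ h6 => ?_⟩
    · rw [h1]
      simp only [h3]
      change _ ↔ ∀ m : ℕ, m ≤ n → n ≤ m + ((X i).dim + dimension X l) →
        IsSpanned ρ (productOf Y Z l') m
      constructor
      · intro h5 m hm hn
        refine h5 (max m (n - (X i).dim)) (by omega) (by omega) m (by omega) (by omega)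
      · intro h5 m hm hn m' hm' hn'
        exact h5 m' (by omega) (by omega)
    · obtain ⟨rfl, rfl⟩ := List.cons.inj h6
      exact h0

end Pool.Agent.U173.GS
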